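import Pool.Agent.H852R2.TE.Defs

namespace TE852
open RC14 RC852 Finset
open scoped InnerProductSpace

variable {G : Type*} [Group G]
variable {V : Type*} [NormedAddCommGroup V] [InnerProductSpace ℂ V]

namespace FCOEF

/-- `B` is a combination of the words of length `N` with coefficients at most `β` divided by the
number of words -/
def Rep {q : ℕ} (ρ : G →* (V ≃ₗᵢ[ℂ] V)) (x : Fin q → G) (N : ℕ) (β : ℝ)
    (B : Module.End ℂ V) : Prop :=
  ∃ c : (Fin N → Fin q × Bool) → ℝ, (∀ v, |c v| ≤ β / (Fintype.card (Fin q × Bool) : ℝ) ^ N) ∧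
    B = ∑ v, (c v : ℂ) • op ρ (wrd x v)

variable {q : ℕ} {ρ : G →* (V ≃ₗᵢ[ℂ] V)} {x : Fin q → G}

lemma rep_one : Rep ρ x 0 1 1 := by
  refine ⟨fun _ => 1, fun v => by simp, ?_⟩
  simp [wrd, op_one]

lemma wrd_append {N M : ℕ} (v : Fin N → Fin q × Bool) (w : Fin M → Fin q × Bool) :
    wrd x (Fin.append v w) = wrd x v * wrd x w := by
  unfold wrd
  rw [← List.prod_append]
  congr 1
  rw [List.ofFn_add]
  simp

lemma rep_mul {N M : ℕ} {β γ : ℝ} {B C : Module.End ℂ V} (hB : Rep ρ x N β B)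
    (hC : Rep ρ x M γ C) : Rep ρ x (N + M) (β * γ) (B * C) := by
  obtain ⟨c, hc, rfl⟩ := hB
  obtain ⟨d, hd, rfl⟩ := hC
  refine ⟨fun v => c (fun i => v (Fin.castAdd M i)) * d (fun i => v (Fin.natAdd N i)), ?_, ?_⟩
  · intro v
    rw [abs_mul, pow_add, mul_div_mul_comm]
    exact mul_le_mul (hc _) (hd _) (abs_nonneg _) ((abs_nonneg _).trans (hc fun i =>
      v (Fin.castAdd M i)))
  · rw [Finset.sum_mul_sum, ← Fintype.sum_prod_type',
      ← (Fin.appendEquiv (α := Fin q × Bool) N M).sum_comp]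
    refine Finset.sum_congr rfl fun p _ => ?_
    simp only [Fin.appendEquiv, Equiv.coe_fn_mk, Fin.append_left, Fin.append_right]
    rw [wrd_append, op_mul, smul_mul_smul_comm]
    push_cast
    rfl

lemma rep_add {N : ℕ} {β γ : ℝ} {B C : Module.End ℂ V} (hB : Rep ρ x N β B)
    (hC : Rep ρ x N γ C) : Rep ρ x N (β + γ) (B + C) := by
  obtain ⟨c, hc, rfl⟩ := hB
  obtain ⟨d, hd, rfl⟩ := hC
  refine ⟨fun v => c v + d v, fun v => ?_, ?_⟩
  · rw [add_div]
    exact (abs_add_le _ _).trans (add_le_add (hc v) (hd v))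
  · rw [← Finset.sum_add_distrib]
    refine Finset.sum_congr rfl fun v _ => ?_
    push_cast
    rw [add_smul]

lemma rep_smul {N : ℕ} {β : ℝ} {B : Module.End ℂ V} (r : ℕ) (hB : Rep ρ x N β B) :
    Rep ρ x N (r * β) ((r : ℂ) • B) := by
  obtain ⟨c, hc, rfl⟩ := hB
  refine ⟨fun v => r * c v, fun v => ?_, ?_⟩
  · rw [abs_mul, Nat.abs_cast, mul_div_assoc]
    exact mul_le_mul_of_nonneg_left (hc v) (Nat.cast_nonneg r)
  · rw [Finset.smul_sum]
    refine Finset.sum_congr rfl fun v _ => ?_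
    push_cast
    rw [mul_smul]

lemma rep_zero {N : ℕ} : Rep ρ x N 0 0 :=
  ⟨fun _ => 0, fun v => by simp, by simp⟩

lemma rep_pow {B : Module.End ℂ V} (hB : Rep ρ x 1 1 B) (i : ℕ) : Rep ρ x i 1 (B ^ i) := by
  induction i with
  | zero => simpa using rep_one
  | succ i ih =>
    rw [pow_succ]
    simpa using rep_mul ih hB

lemma rep_letter {c : Fin q × Bool → ℝ}
    (hc : ∀ l, |c l| ≤ 1 / (Fintype.card (Fin q × Bool) : ℝ)) :
    Rep ρ x 1 1 (∑ l, (c l : ℂ) • op ρ (sl x l)) := by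
  refine ⟨fun v => c (v 0), fun v => by simpa using hc (v 0), ?_⟩
  rw [← (Equiv.funUnique (Fin 1) (Fin q × Bool)).symm.sum_comp]
  refine Finset.sum_congr rfl fun l _ => ?_
  simp [wrd]

end FCOEF
open FCOEF

/-- the square of `F(T)` as a combination of words -/
theorem FCOEF {a : ℕ} (ha : 1 ≤ a) (ρ : G →* (V ≃ₗᵢ[ℂ] V)) (x : Fin a → G) (M d : ℕ)
    (hd : d ≤ M) : ∃ c : (Fin (2 * M) → Fin (a + a) × Bool) → ℝ,
      (∀ v, |c v| ≤ NF M d ^ 2 / (Fintype.card (Fin (2 * M) → Fin (a + a) × Bool) : ℝ)) ∧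
      Fp (Tq ρ (lz x)) M d * Fp (Tq ρ (lz x)) M d =
        ∑ v, (c v : ℂ) • op ρ (wrd (lz x) v) := by
  have ha0 : (a : ℂ) ≠ 0 := by
    have : (a : ℕ) ≠ 0 := by omega
    exact_mod_cast this
  have hcard : (Fintype.card (Fin (a + a) × Bool) : ℝ) = 4 * a := by
    simp only [Fintype.card_prod, Fintype.card_fin, Fintype.card_bool]
    push_cast
    ring
  have hT : Rep ρ (lz x) 1 1 (Tq ρ (lz x)) := by
    have h := rep_letter (ρ := ρ) (x := lz x)
      (c := fun _ => 1 / (Fintype.card (Fin (a + a) × Bool) : ℝ)) (fun l => by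
        rw [abs_of_nonneg (by positivity)])
    convert h using 1
    unfold Tq
    rw [Finset.smul_sum, hcard]
    refine Finset.sum_congr rfl fun l _ => ?_
    push_cast
    ring_nf
  have hT1 : Rep ρ (lz x) 1 1 (1 - Tq ρ (lz x)) := by
    have h := rep_letter (ρ := ρ) (x := lz x)
      (c := fun l => (if a ≤ (l.1 : ℕ) then 1 else -1) /
        (Fintype.card (Fin (a + a) × Bool) : ℝ)) (fun l => by
        rw [abs_div, abs_of_nonneg (by positivity :
          (0 : ℝ) ≤ (Fintype.card (Fin (a + a) × Bool) : ℝ))]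
        split_ifs <;> simp)
    convert h using 1
    rw [sub_eq_iff_eq_add]
    unfold Tq
    rw [Finset.smul_sum, ← Finset.sum_add_distrib, Fintype.sum_prod_type, Fin.sum_univ_add]
    simp only [Fin.val_castAdd, Fin.val_natAdd, Fintype.sum_bool]
    have h1 : ∀ i : Fin a, ¬ a ≤ (i : ℕ) := fun i => by have := i.2; omega
    simp only [h1, if_false, Nat.le_add_right, if_true]
    have h2 : ∀ i : Fin a, lz x (Fin.natAdd a i) = 1 := fun i => by
      unfold lz; rw [Fin.append_right]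
    simp only [sl, h2, inv_one, if_true, Bool.false_eq_true, if_false, op_one, ← add_smul]
    rw [hcard]
    have h3 : ((((-1 : ℝ) / (4 * (a : ℝ)) : ℝ) : ℂ) + (1 / (2 * ((a + a : ℕ) : ℂ)) : ℂ)) = 0 := by
      push_cast
      field_simp
      ring
    have h4 : ((((1 : ℝ) / (4 * (a : ℝ)) : ℝ) : ℂ) + (1 / (2 * ((a + a : ℕ) : ℂ)) : ℂ)) =
        1 / (2 * a) := by
      push_cast
      field_simp
      ring
    rw [h3, h4]
    simp only [zero_smul, add_zero, Finset.sum_const_zero, zero_add, Finset.sum_const,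
      Finset.card_univ, Fintype.card_fin, ← Nat.cast_smul_eq_nsmul ℂ, smul_smul]
    have h5 : ((a : ℂ) * (1 / (2 * a) + 1 / (2 * a))) = 1 := by
      field_simp
      norm_num
    rw [h5, one_smul]
  have hF : Rep ρ (lz x) M (NF M d) (Fp (Tq ρ (lz x)) M d) := by
    unfold NF Fp
    have key : ∀ e, e ≤ M → Rep ρ (lz x) M (∑ i ∈ Finset.range (e + 1), (M.choose i : ℝ))
        (∑ i ∈ Finset.range (e + 1), (M.choose i : ℂ) •
          ((1 - Tq ρ (lz x)) ^ i * Tq ρ (lz x) ^ (M - i))) := by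
      have hterm : ∀ i, i ≤ M → Rep ρ (lz x) M (M.choose i : ℝ) ((M.choose i : ℂ) •
          ((1 - Tq ρ (lz x)) ^ i * Tq ρ (lz x) ^ (M - i))) := by
        intro i hi
        have h := rep_mul (rep_pow hT1 i) (rep_pow hT (M - i))
        rw [Nat.add_sub_cancel' hi, mul_one] at h
        simpa using rep_smul (M.choose i) h
      intro e
      induction e with
      | zero => intro _; simpa using hterm 0 (Nat.zero_le _)
      | succ e ih =>
        intro he
        rw [Finset.sum_range_succ (fun i => (M.choose i : ℝ)),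
          Finset.sum_range_succ (fun i => (M.choose i : ℂ) •
            ((1 - Tq ρ (lz x)) ^ i * Tq ρ (lz x) ^ (M - i)))]
        exact rep_add (ih (by omega)) (hterm _ he)
    exact key d hd
  have hFF := rep_mul hF hF
  rw [← two_mul M, ← pow_two (NF M d)] at hFF
  obtain ⟨c, hc, he⟩ := hFF
  refine ⟨c, fun v => ?_, he⟩
  have := hc v
  rwa [Fintype.card_fun, Fintype.card_fin, Nat.cast_pow]

end TE852
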