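import Pool.Agent.H852R2.TE.S.NDEG
import Pool.Agent.H852R2.TE.S.FIXCNT2
import Pool.Agent.H469R2.EX.EXPOB

namespace TE852
open RC14 RC852 Finset Filter Equiv

/-- few pairs (letters, block word) have many fixed points -/
theorem EXPOB2 (n q J r F f K' : ℕ) (hq : 1 ≤ q) (hJ : 1 ≤ J) (hJn : 2 * J ≤ n) (hr : 1 ≤ r)
    (hrF : 2 * r ≤ F) (hFn : F ≤ n) (hK' : 1 ≤ K') (hf : Odd f) {K : Type*} [Fintype K]
    [Nonempty K] (g : K → Equiv.Perm (Fin n)) (hg : MixT r g)
    (hF : 4 * (f * (3 * J + 1) + K') ≤ F) :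
    (Nat.card {p : (Fin q → Alt n) × (Fin J → K × (Fin q × Bool)) //
        2 * F ≤ nfix (bwd g (fun i => (p.1 i : Equiv.Perm (Fin n))) p.2)} : ℝ) ≤
      (J * n / (K' : ℝ) ^ f +
        (2 * n / F : ℝ) ^ r * (2 ^ ((r + 1) * J) * (2 * J / n : ℝ) ^ (r * (J / 4 + 1)))) *
        ((Fintype.card (Alt n) : ℝ) ^ q * (Fintype.card (K × (Fin q × Bool)) : ℝ) ^ J) := by
  classical
  have hKpos : (0 : ℝ) < (K' : ℝ) ^ f := by positivity
  refine le_trans (EXPOB.card_or _
    (fun p : (Fin q → Alt n) × (Fin J → K × (Fin q × Bool)) =>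
      F ≤ #{a : Fin n | bwd g (fun i => (p.1 i : Equiv.Perm (Fin n))) p.2 a = a ∧
        3 * J ≤ 4 * dst g (fun i => (p.1 i : Equiv.Perm (Fin n))) (List.ofFn p.2) a})
    (fun p : (Fin q → Alt n) × (Fin J → K × (Fin q × Bool)) =>
      F ≤ #{a : Fin n | 4 * dst g (fun i => (p.1 i : Equiv.Perm (Fin n))) (List.ofFn p.2) a <
        3 * J})
    ?_) ?_
  · intro p hp
    have h1 : nfix (bwd g (fun i => (p.1 i : Equiv.Perm (Fin n))) p.2) ≤
        #{a : Fin n | bwd g (fun i => (p.1 i : Equiv.Perm (Fin n))) p.2 a = a ∧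
          3 * J ≤ 4 * dst g (fun i => (p.1 i : Equiv.Perm (Fin n))) (List.ofFn p.2) a} +
        #{a : Fin n | 4 * dst g (fun i => (p.1 i : Equiv.Perm (Fin n))) (List.ofFn p.2) a <
          3 * J} := by
      unfold nfix
      refine (Finset.card_le_card ?_).trans (Finset.card_union_le _ _)
      intro a ha
      simp only [Finset.mem_filter, Finset.mem_univ, true_and, Finset.mem_union] at ha ⊢
      by_cases h : 3 * J ≤ 4 * dst g (fun i => (p.1 i : Equiv.Perm (Fin n))) (List.ofFn p.2) a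
      · exact Or.inl ⟨ha, h⟩
      · exact Or.inr (by omega)
    by_cases h : F ≤ #{a : Fin n | bwd g (fun i => (p.1 i : Equiv.Perm (Fin n))) p.2 a = a ∧
          3 * J ≤ 4 * dst g (fun i => (p.1 i : Equiv.Perm (Fin n))) (List.ofFn p.2) a}
    · exact Or.inl h
    · right
      omega
  · rw [add_mul]
    refine add_le_add ?_ ?_
    · have h1 := EXPOB.card_right (α := Fin q → Alt n) (β := Fin J → K × (Fin q × Bool))
        (fun b w => F ≤ #{a : Fin n | bwd g (fun i => (b i : Equiv.Perm (Fin n))) w a = a ∧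
          3 * J ≤ 4 * dst g (fun i => (b i : Equiv.Perm (Fin n))) (List.ofFn w) a})
        ((Fintype.card (Alt n) : ℝ) ^ q * (J * n) / (K' : ℝ) ^ f) (fun w => by
          rw [le_div_iff₀ hKpos]
          exact_mod_cast FIXCNT2 n q J F f K' hJ hf g w hF)
      refine h1.trans (le_of_eq ?_)
      rw [Fintype.card_fun, Fintype.card_fin]
      push_cast
      ring
    · have h3 := EXPOB.card_left (α := Fin q → Alt n) (β := Fin J → K × (Fin q × Bool))
        (fun b w => F ≤ #{a : Fin n |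
          4 * dst g (fun i => (b i : Equiv.Perm (Fin n))) (List.ofFn w) a < 3 * J})
        ((2 * n / F : ℝ) ^ r * (2 ^ ((r + 1) * J) * (2 * J / n : ℝ) ^ (r * (J / 4 + 1))) *
          (Fintype.card (K × (Fin q × Bool)) : ℝ) ^ J)
        (fun b => NDEG n q J r F hq hJ hJn hr hrF hFn g hg _)
      refine h3.trans (le_of_eq ?_)
      rw [Fintype.card_fun, Fintype.card_fin]
      push_cast
      ring

end TE852
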